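import Mathlib
import Pool.Agent.H.MP_7d59ed_nt.A

namespace Pool.Agent.Results.MP_7d59ed_nt.Limit

open Filter Topology

theorem result (h : ℕ → ℤ) (h0 : h 0 = 0) (h1 : h 1 = 1)
    (hrec : ∀ n, h (n + 2) = (-1) ^ (Nat.digits 2 (n + 2)).count 1 * h (n + 1) + h n) :
    ∃ g : ℝ, Tendsto (fun n : ℕ => |(h n : ℝ)| ^ (1 / n : ℝ)) atTop (𝓝 g) ∧
      1.152 < g ∧ g < 1.1525 := by
  have hh : h = H.MP_7d59ed_nt.h := by
    funext n
    induction n using Nat.twoStepInduction with
    | zero => exact h0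
    | one => exact h1
    | more n a b => rw [hrec, a, b, H.MP_7d59ed_nt.h, H.MP_7d59ed_nt.t]
  subst hh
  obtain ⟨L, hL, hb⟩ := H.MP_7d59ed_nt.conv
  refine ⟨Real.exp L, ?_, ?_⟩
  · rw [← tendsto_add_atTop_iff_nat 6]
    have t1 := hL.mul (tendsto_natCast_div_add_atTop (6 : ℝ))
    rw [mul_one] at t1
    refine ((Real.continuous_exp.tendsto L).comp t1).congr' ?_
    filter_upwards [eventually_gt_atTop 0] with n hn
    have hn' : (n : ℝ) ≠ 0 := by positivity
    have hne : (0 : ℝ) < |(H.MP_7d59ed_nt.h (n + 6) : ℝ)| :=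
      abs_pos.2 (Int.cast_ne_zero.2 (H.MP_7d59ed_nt.ne (n + 6) (by omega)))
    rw [Real.rpow_def_of_pos hne, Function.comp_apply, H.MP_7d59ed_nt.f]
    congr 1
    push_cast
    field_simp
  · have e1 : (H.MP_7d59ed_nt.go 2048 0 2 7 : ℤ) = H.MP_7d59ed_nt.V (2 ^ 11 * 1) :=
      H.MP_7d59ed_nt.go_eq 2048 0 2 7 (by norm_num)
        (by simp [H.MP_7d59ed_nt.V, H.MP_7d59ed_nt.vals])
        (by simp [H.MP_7d59ed_nt.V, H.MP_7d59ed_nt.vals])
    have e2 : (H.MP_7d59ed_nt.go 4096 0 2 7 : ℤ) = H.MP_7d59ed_nt.V (2 ^ 11 * 2) :=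
      H.MP_7d59ed_nt.go_eq 4096 0 2 7 (by norm_num)
        (by simp [H.MP_7d59ed_nt.V, H.MP_7d59ed_nt.vals])
        (by simp [H.MP_7d59ed_nt.V, H.MP_7d59ed_nt.vals])
    have hk := hb 11
    have p1 := (H.MP_7d59ed_nt.cone (2 ^ 11 * 1)).1
    have p2 := (H.MP_7d59ed_nt.cone (2 ^ 11 * 2)).1
    obtain ⟨n1, n2⟩ := H.MP_7d59ed_nt.num
    rw [H.MP_7d59ed_nt.g, ← e1, ← e2] at hk
    rw [← e1] at p1
    rw [← e2] at p2
    generalize H.MP_7d59ed_nt.go 2048 0 2 7 = x at *
    generalize H.MP_7d59ed_nt.go 4096 0 2 7 = y at *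
    generalize hN : 16384 = N at n1 n2
    have hx : (0 : ℝ) < x := by exact_mod_cast p1
    have hy : (0 : ℝ) < y := by exact_mod_cast p2
    have m1 : (144 : ℝ) ^ N * (13 * x) < 125 ^ N * y := by exact_mod_cast n1
    have m2 : (400 : ℝ) ^ N * (13 * y) < 461 ^ N * x := by exact_mod_cast n2
    have l1 := Real.log_lt_log (by positivity) m1
    have l2 := Real.log_lt_log (by positivity) m2
    rw [Real.log_mul (by positivity) (by positivity), Real.log_mul (by positivity) hx.ne',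
      Real.log_mul (by positivity) hy.ne', Real.log_pow, Real.log_pow] at l1
    rw [Real.log_mul (by positivity) (by positivity), Real.log_mul (by positivity) hy.ne',
      Real.log_mul (by positivity) hx.ne', Real.log_pow, Real.log_pow] at l2
    subst hN
    simp only [Int.cast_natCast] at hk
    rw [abs_le] at hk
    obtain ⟨k1, k2⟩ := hk
    norm_num at k1 k2 l1 l2
    constructor
    · rw [← Real.log_lt_iff_lt_exp (by norm_num), show (1.152 : ℝ) = 144 / 125 by norm_num,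
        Real.log_div (by norm_num) (by norm_num)]
      linarith
    · rw [← Real.lt_log_iff_exp_lt (by norm_num), show (1.1525 : ℝ) = 461 / 400 by norm_num,
        Real.log_div (by norm_num) (by norm_num)]
      linarith

end Pool.Agent.Results.MP_7d59ed_nt.Limit
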